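import Pool.Agent.H.MP_4f19f9_lc.MB.Num

/-!
# Numerical estimates
-/

namespace Pool.Agent.MC

open Finset Filter

/-- The primes p with r < p^t and p at most N. -/
def PT (r N t : ℕ) : Finset ℕ := (Finset.range (N + 1)).filter (fun p => p.Prime ∧ r < p ^ t)

theorem PT_prime {r N t p : ℕ} (hp : p ∈ PT r N t) : p.Prime := (Finset.mem_filter.1 hp).2.1

theorem PT_le {r N t p : ℕ} (hp : p ∈ PT r N t) : p ≤ N :=
  Nat.lt_succ_iff.1 (Finset.mem_range.1 (Finset.mem_filter.1 hp).1)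

theorem PT_lt {r N t : ℕ} (ht : 1 ≤ t) {A : Finset ℕ} (hA : A ⊆ PT r N t) (hc : A.card = t) :
    r < ∏ p ∈ A, p := by
  have hne : A.Nonempty := by
    rw [← Finset.card_pos]
    omega
  have h1 : A.min' hne ∈ PT r N t := hA (A.min'_mem hne)
  have h2 : r < (A.min' hne) ^ t := (Finset.mem_filter.1 h1).2.2
  refine h2.trans_le ?_
  calc (A.min' hne) ^ t = ∏ _p ∈ A, A.min' hne := by rw [Finset.prod_const, hc]
    _ ≤ ∏ p ∈ A, p := Finset.prod_le_prod' (fun p hp => A.min'_le p hp)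

theorem theta_le_PT (r n t m : ℕ) (hm : ∀ p : ℕ, p ^ t ≤ r → p ≤ m) : Chebyshev.theta n ≤
    (PT r n t).card * Real.log n + Real.log 4 * (m : ℝ) := by
  classical
  have h1 : Nat.primesLE n ⊆ PT r n t ∪ Nat.primesLE m := by
    intro p hp
    rw [Nat.mem_primesLE] at hp
    rw [Finset.mem_union]
    by_cases h : r < p ^ t
    · exact Or.inl (Finset.mem_filter.2 ⟨Finset.mem_range.2 (Nat.lt_succ_of_le hp.1), hp.2, h⟩)
    · right
      rw [Nat.mem_primesLE]
      exact ⟨hm p (not_lt.1 h), hp.2⟩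
  have hpos : ∀ p : ℕ, 0 ≤ Real.log (p : ℝ) := fun p => Real.log_natCast_nonneg p
  rw [Chebyshev.theta_eq_sum_primesLE_log]
  calc ∑ p ∈ Nat.primesLE n, Real.log (p : ℝ)
      ≤ ∑ p ∈ PT r n t ∪ Nat.primesLE m, Real.log (p : ℝ) :=
        Finset.sum_le_sum_of_subset_of_nonneg h1 (fun p _ _ => hpos p)
    _ ≤ ∑ p ∈ PT r n t, Real.log (p : ℝ) + ∑ p ∈ Nat.primesLE m, Real.log (p : ℝ) := by
        rw [← Finset.sum_union_inter]
        exact le_add_of_nonneg_right (Finset.sum_nonneg (fun p _ => hpos p))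
    _ ≤ (PT r n t).card * Real.log n + Real.log 4 * (m : ℝ) := by
        apply add_le_add
        · rw [← nsmul_eq_mul]
          apply Finset.sum_le_card_nsmul
          intro p hp
          apply Real.log_le_log
          · exact_mod_cast (PT_prime hp).pos
          · exact_mod_cast PT_le hp
        · rw [← Chebyshev.theta_eq_sum_primesLE_log]
          exact Chebyshev.theta_le_log4_mul_x (Nat.cast_nonneg _)

/-- There are at least n / (4 log n) primes p at most n with r < p^t, if 6 r^(1/t) is at most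
n. -/
theorem many_primes : ∃ n₀ : ℕ, ∀ n : ℕ, n₀ ≤ n → ∀ r t : ℕ, 1 ≤ t →
    6 * (r : ℝ) ^ (1 / (t : ℝ)) ≤ n → (n : ℝ) / 4 ≤ (PT r n t).card * Real.log n := by
  have e1 : ∀ᶠ x : ℝ in atTop, ‖Real.log x‖ ≤ (1 / 100) * ‖id x‖ :=
    Real.isLittleO_log_id_atTop.bound (by norm_num)
  have e2 : ∀ᶠ x : ℝ in atTop, ‖Real.log x‖ ≤ (1 / 100) * ‖x ^ (1 / 2 : ℝ)‖ :=
    (isLittleO_log_rpow_atTop (by norm_num : (0 : ℝ) < 1 / 2)).bound (by positivity)
  obtain ⟨X1, hX1⟩ := eventually_atTop.1 e1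
  obtain ⟨X2, hX2⟩ := eventually_atTop.1 e2
  obtain ⟨R, hR⟩ := exists_nat_gt (max (max X2 4) X1)
  refine ⟨R, fun n hn r t ht hr => ?_⟩
  have hnR : (R : ℝ) ≤ n := by exact_mod_cast hn
  have h1 : max (max X2 4) X1 < (n : ℝ) := hR.trans_le hnR
  have hX2n : X2 ≤ (n : ℝ) := (le_max_left _ _).trans ((le_max_left _ _).trans h1.le)
  have hn4 : (4 : ℝ) ≤ n := (le_max_right _ _).trans ((le_max_left _ _).trans h1.le)
  have hX1n : X1 ≤ (n : ℝ) := (le_max_right _ _).trans h1.le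
  have hl0 : 0 ≤ Real.log n := Real.log_nonneg (by linarith)
  have hA : Real.log (n + 1) ≤ 1 / 100 * (n + 1) := by
    have := hX1 (n + 1) (by linarith)
    simp only [Real.norm_eq_abs, id_eq] at this
    rw [abs_of_nonneg (Real.log_nonneg (by linarith)), abs_of_nonneg (by linarith)] at this
    exact this
  have hB : Real.log n ≤ 1 / 100 * Real.sqrt n := by
    have h3 := hX2 n hX2n
    simp only [Real.norm_eq_abs] at h3
    rw [abs_of_nonneg hl0, abs_of_nonneg (by positivity), ← Real.sqrt_eq_rpow] at h3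
    exact h3
  have hC : 2 * Real.sqrt n * Real.log n ≤ n / 50 := by
    have h5 : Real.sqrt n * Real.sqrt n = n := Real.mul_self_sqrt (by linarith)
    calc 2 * Real.sqrt n * Real.log n ≤ 2 * Real.sqrt n * (1 / 100 * Real.sqrt n) :=
          mul_le_mul_of_nonneg_left hB (by positivity)
      _ = (Real.sqrt n * Real.sqrt n) / 50 := by ring
      _ = n / 50 := by rw [h5]
  have hD := Chebyshev.theta_ge n
  set m : ℕ := ⌊(r : ℝ) ^ (1 / (t : ℝ))⌋₊ with hm
  have hr0 : (0 : ℝ) ≤ (r : ℝ) ^ (1 / (t : ℝ)) := by positivity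
  have hmr : (m : ℝ) ≤ (r : ℝ) ^ (1 / (t : ℝ)) := Nat.floor_le hr0
  have hpm : ∀ p : ℕ, p ^ t ≤ r → p ≤ m := by
    intro p hp
    rw [hm]
    apply Nat.le_floor
    have ht0 : (t : ℝ) ≠ 0 := by
      have : t ≠ 0 := by omega
      exact_mod_cast this
    have h2 : ((p : ℝ) ^ (t : ℝ)) ^ (1 / (t : ℝ)) = p := by
      rw [← Real.rpow_mul (Nat.cast_nonneg _), mul_one_div, div_self ht0, Real.rpow_one]
    rw [← h2]
    apply Real.rpow_le_rpow (by positivity) _ (by positivity)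
    rw [Real.rpow_natCast]
    exact_mod_cast hp
  have hE := theta_le_PT r n t m hpm
  have hl2 : (0.69 : ℝ) < Real.log 2 := by
    have := Real.log_two_gt_d9
    linarith
  have hl2' : Real.log 2 < 0.7 := by
    have := Real.log_two_lt_d9
    linarith
  have hl4 : Real.log 4 < 1.4 := by
    have : Real.log 4 = 2 * Real.log 2 := by
      rw [show (4 : ℝ) = 2 ^ 2 by norm_num, Real.log_pow]
      norm_num
    linarith
  have hs : (m : ℝ) ≤ n / 6 := by linarith
  have hF : Real.log 4 * (m : ℝ) ≤ 1.4 * (n / 6) :=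
    mul_le_mul hl4.le hs (Nat.cast_nonneg _) (by norm_num)
  have hG : 0.69 * (n : ℝ) ≤ n * Real.log 2 := by nlinarith
  linarith

end Pool.Agent.MC
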