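import Pool.Agent.H.MP_4f19f9_lc.MC.Main
import Pool.Agent.H.MP_4f19f9_lc.MC.Num

/-!
# The theorem
-/

namespace Pool.Agent.MC

open Pool.Agent.SC Pool.Agent.SD Pool.Agent.MB SimpleGraph Finset Filter

/-- The combinatorial core, for one length r and one bound n for the primes. -/
theorem core2 {r n v t : ℕ} (ht : 1 ≤ t) (hv : 2 ^ (r + 1) ≤ v) (hv2 : v < 2 ^ (r + 2)) {a : ℝ}
    (ha : (Fintype.card {T : Finset (Fin r) // T.card ≤ n} : ℝ) ≤ a) :
    HardList (fun c => IsCubelike (gr c)) v (PT r n t).card t a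
      (((v : ℝ) / 4) ^ (1 / (t : ℝ))) ∧
    HardList (fun c => IsCubelikeJoin (gr c) ∧ theta (gr c) = (gr c).indepNum)
      v (PT r n t).card t a (((v : ℝ) / 4) ^ (1 / (t : ℝ))) := by
  classical
  have hs : (((v : ℝ) / 4) ^ (1 / (t : ℝ))) ^ t ≤ ((2 ^ r : ℕ) : ℝ) := by
    have ht0 : (t : ℝ) ≠ 0 := by
      have : t ≠ 0 := by omega
      exact_mod_cast this
    rw [← Real.rpow_natCast, ← Real.rpow_mul (by positivity), one_div_mul_cancel ht0,
      Real.rpow_one]
    have : v ≤ 4 * 2 ^ r := by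
      have : 2 ^ (r + 2) = 4 * 2 ^ r := by ring
      omega
    have h2 : (v : ℝ) ≤ ((4 * 2 ^ r : ℕ) : ℝ) := by exact_mod_cast this
    push_cast at h2 ⊢
    linarith
  have hb : ∀ p ∈ PT r n t, theta (cayley (conn r p)) ≤
      ((Fintype.card {T : Finset (Fin r) // T.card ≤ n} : ℕ) : ℝ) := by
    intro p hp
    have := Fact.mk (PT_prime hp)
    refine (theta_conn r p).trans ?_
    have h1 : Fintype.card {T : Finset (Fin r) // T.card ≤ p - 1} ≤
        Fintype.card {T : Finset (Fin r) // T.card ≤ n} := by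
      apply Fintype.card_subtype_mono
      intro T hT
      have h2 := PT_le hp
      change T.card ≤ p - 1 at hT
      change T.card ≤ n
      omega
    exact_mod_cast h1
  have hm : Fintype.card {T : Finset (Fin r) // T.card ≤ n} ≤ 2 ^ r := by
    refine (Fintype.card_subtype_le _).trans ?_
    rw [Fintype.card_finset, Fintype.card_fin]
  have hvv : 2 ^ r + Fintype.card {T : Finset (Fin r) // T.card ≤ n} ≤ v := by
    have : 2 ^ (r + 1) = 2 ^ r + 2 ^ r := by ring
    omega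
  exact core ht (fun p hp => PT_prime hp) (fun A hA hc => PT_lt ht hA hc) hb ha hvv hs

theorem main : ∃ C : ℝ, 0 < C ∧ ∀ v : ℕ, C ≤ v → ∀ (t : ℕ) (N : ℝ), 1 ≤ t →
    C * Real.log v ^ (1 / (t : ℝ)) ≤ N → N ≤ Real.log v →
    ∃ M : ℕ, N / (C * Real.log N) ≤ M ∧
      HardList (fun c => IsCubelike (gr c)) v M t ((C * Real.log v / N) ^ N)
        (((v : ℝ) / 4) ^ (1 / (t : ℝ))) ∧
      HardList (fun c => IsCubelikeJoin (gr c) ∧ theta (gr c) = (gr c).indepNum)
        v M t ((C * Real.log v / N) ^ N) (((v : ℝ) / 4) ^ (1 / (t : ℝ))) := by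
  obtain ⟨n₀, hn₀⟩ := many_primes
  have hl2 : (0.69 : ℝ) < Real.log 2 := by
    have := Real.log_two_gt_d9
    linarith
  have hl2' : Real.log 2 < 0.7 := by
    have := Real.log_two_lt_d9
    linarith
  obtain ⟨C, hC⟩ : ∃ C : ℝ, 1024 ≤ C ∧ (2 * n₀ + 2 : ℝ) ≤ C := ⟨max 1024 (2 * n₀ + 2),
    le_max_left _ _, le_max_right _ _⟩
  obtain ⟨hC1, hC2⟩ := hC
  have hC0 : 0 < C := by linarith
  refine ⟨C, hC0, fun v hv t N ht hN1 hN2 => ?_⟩
  have hvR : (1024 : ℝ) ≤ v := hC1.trans hv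
  have hv1 : 1024 ≤ v := by exact_mod_cast hvR
  have htR : (1 : ℝ) ≤ t := by exact_mod_cast ht
  -- the length
  obtain ⟨r, hr1, hr2⟩ : ∃ r : ℕ, 2 ^ (r + 1) ≤ v ∧ v < 2 ^ (r + 2) := by
    have h1 : 10 ≤ Nat.log 2 v := Nat.le_log_of_pow_le (by norm_num) (by norm_num; exact hv1)
    refine ⟨Nat.log 2 v - 1, ?_, ?_⟩
    · rw [show Nat.log 2 v - 1 + 1 = Nat.log 2 v by omega]
      exact Nat.pow_log_le_self 2 (by omega)
    · rw [show Nat.log 2 v - 1 + 2 = Nat.log 2 v + 1 by omega]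
      exact Nat.lt_pow_succ_log_self (by norm_num) v
  have hv0 : (0 : ℝ) < v := by linarith
  have hLlow : (r + 1 : ℝ) * Real.log 2 ≤ Real.log v := by
    have h1 : ((2 : ℝ)) ^ (r + 1) ≤ v := by exact_mod_cast hr1
    have h2 := Real.log_le_log (by positivity) h1
    rw [Real.log_pow] at h2
    push_cast at h2
    exact h2
  have hLup : Real.log v ≤ (r + 2 : ℝ) * Real.log 2 := by
    have h1 : (v : ℝ) ≤ (2 : ℝ) ^ (r + 2) := by exact_mod_cast hr2.le
    have h2 := Real.log_le_log hv0 h1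
    rw [Real.log_pow] at h2
    push_cast at h2
    exact h2
  have hL6 : (6.9 : ℝ) ≤ Real.log v := by
    have h1 : Real.log (1024 : ℝ) ≤ Real.log v := Real.log_le_log (by norm_num) hvR
    have h2 : Real.log (1024 : ℝ) = 10 * Real.log 2 := by
      rw [show (1024 : ℝ) = 2 ^ 10 by norm_num, Real.log_pow]
      norm_num
    rw [h2] at h1
    linarith
  set L : ℝ := Real.log v with hL
  have hr7 : (7 : ℝ) ≤ r := by nlinarith
  have hLr : L ≤ r := by nlinarith
  have hrL : (r : ℝ) ≤ 1.45 * L := by nlinarith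
  have hL0 : 0 < L := by linarith
  have hsq1 : 1 ≤ L ^ (1 / (t : ℝ)) :=
    Real.one_le_rpow (by linarith) (by positivity)
  have hNC : C ≤ N := by
    refine le_trans ?_ hN1
    nlinarith
  have hN0 : 0 < N := by linarith
  -- the number of primes
  set n : ℕ := ⌊N⌋₊ with hn
  have hnN : (n : ℝ) ≤ N := Nat.floor_le hN0.le
  have hNn : N < n + 1 := Nat.lt_floor_add_one N
  have hn2 : N / 2 ≤ n := by linarith
  have hnn₀ : n₀ ≤ n := by
    have : (n₀ : ℝ) ≤ n := by linarith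
    exact_mod_cast this
  have hsr : (r : ℝ) ^ (1 / (t : ℝ)) ≤ 1.45 * L ^ (1 / (t : ℝ)) := by
    calc (r : ℝ) ^ (1 / (t : ℝ)) ≤ (1.45 * L) ^ (1 / (t : ℝ)) :=
          Real.rpow_le_rpow (Nat.cast_nonneg _) hrL (by positivity)
      _ = (1.45 : ℝ) ^ (1 / (t : ℝ)) * L ^ (1 / (t : ℝ)) :=
          Real.mul_rpow (by norm_num) hL0.le
      _ ≤ 1.45 * L ^ (1 / (t : ℝ)) := by
          apply mul_le_mul_of_nonneg_right _ (by positivity)
          calc (1.45 : ℝ) ^ (1 / (t : ℝ)) ≤ (1.45 : ℝ) ^ (1 : ℝ) := by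
                apply Real.rpow_le_rpow_of_exponent_le (by norm_num)
                rw [div_le_one (by linarith)]
                exact htR
            _ = 1.45 := Real.rpow_one _
  have h6 : 6 * (r : ℝ) ^ (1 / (t : ℝ)) ≤ n := by
    have h1 : 1024 * L ^ (1 / (t : ℝ)) ≤ N := by
      refine le_trans ?_ hN1
      exact mul_le_mul_of_nonneg_right hC1 (by positivity)
    linarith
  have hprimes := hn₀ n hnn₀ r t ht h6
  have hnR1 : (1 : ℝ) ≤ n := by linarith
  have hlog : Real.log n ≤ Real.log N := Real.log_le_log (by linarith) hnN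
  have hll0 : 0 < Real.log N := Real.log_pos (by linarith)
  have hkc : N / (C * Real.log N) ≤ (PT r n t).card := by
    rw [div_le_iff₀ (by positivity)]
    have h1 : (n : ℝ) / 4 ≤ (PT r n t).card * Real.log N :=
      hprimes.trans (mul_le_mul_of_nonneg_left hlog (Nat.cast_nonneg _))
    have h2 : ((PT r n t).card : ℝ) * Real.log N * 1024 ≤
        ((PT r n t).card : ℝ) * Real.log N * C :=
      mul_le_mul_of_nonneg_left hC1 (by positivity)
    linarith
  -- the capacity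
  have hcap : (Fintype.card {T : Finset (Fin r) // T.card ≤ n} : ℝ) ≤ (C * L / N) ^ N := by
    refine (card_le_rpow hN0 hnN (hN2.trans hLr)).trans ?_
    apply Real.rpow_le_rpow (by positivity) _ hN0.le
    apply div_le_div_of_nonneg_right _ hN0.le
    have he : Real.exp 1 < 2.7182818286 := Real.exp_one_lt_d9
    have he0 : 0 < Real.exp 1 := Real.exp_pos 1
    calc Real.exp 1 * r ≤ 2.7182818286 * (1.45 * L) :=
          mul_le_mul he.le hrL (Nat.cast_nonneg _) (by norm_num)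
      _ ≤ C * L := by nlinarith
  exact ⟨(PT r n t).card, hkc, core2 ht hr1 hr2 hcap⟩

end Pool.Agent.MC
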