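import Pool.Agent.H.MP_4f19f9_lc.MB.Rep
import Pool.Agent.H.MP_4f19f9_lc.MC.Defs
import Pool.Agent.H.MP_4f19f9_lc.SD.Comp1

/-!
# Families of submultiplicative bounds
-/

namespace Pool.Agent.MC

open Pool.Agent.SC Pool.Agent.SD Pool.Agent.MB SimpleGraph Finset

theorem exists_code_iso {V : Type} [Finite V] (G : SimpleGraph V) :
    ∃ c : Code, c.1 = Nat.card V ∧ Nonempty (gr c ≃g G) := by
  obtain ⟨n, ⟨e⟩⟩ := Finite.exists_equiv_fin V
  obtain ⟨L, -, hL⟩ := exists_gr (G.comap e.symm)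
  refine ⟨(n, L), ?_, ?_⟩
  · show n = Nat.card V
    rw [Nat.card_congr e, Nat.card_eq_fintype_card, Fintype.card_fin]
  · rw [hL]
    exact ⟨{ toEquiv := e.symm
             map_rel_iff' := by intro a b; exact Iff.rfl }⟩

theorem sep_sprod {V W : Type*} {G : SimpleGraph V} {H : SimpleGraph W} {x y : V × W}
    (h : Gᶜ.Adj x.1 y.1 ∨ Hᶜ.Adj x.2 y.2) : (sprod G H)ᶜ.Adj x y := by
  rw [compl_adj]
  rcases h with h | h <;> rw [compl_adj] at h
  · refine ⟨fun e => h.1 (by rw [e]), fun h2 => ?_⟩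
    rcases h2.2.1 with h3 | h3
    · exact h.1 h3
    · exact h.2 h3
  · refine ⟨fun e => h.1 (by rw [e]), fun h2 => ?_⟩
    rcases h2.2.2 with h3 | h3
    · exact h.1 h3
    · exact h.2 h3

theorem bound_nonneg {f : Code → ℝ} (hf : IsBound f) (c : Code) : 0 ≤ f c :=
  le_trans (Nat.cast_nonneg _) (hf.indep c)

/-- Each submultiplicative bound is small at at most t - 1 of the graphs. -/
theorem count {N M t : ℕ} (hN : 0 < N) (ht : 1 ≤ t) (G : Fin M → Code)
    (h : ∀ A : Finset (Fin M), A.card = t → ∀ f, IsBound f → (N : ℝ) ≤ ∏ i ∈ A, f (G i))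
    {b : ℝ} (hbN : b ^ t ≤ N) (k : ℕ) (f : Fin k → Code → ℝ)
    (hf : ∀ l, IsBound (f l)) :
    M ≤ (t - 1) * k + Nat.card {i : Fin M // ∀ l, b ≤ f l (G i)} := by
  classical
  have hN' : (0 : ℝ) < N := by exact_mod_cast hN
  have hbad : ∀ l, (univ.filter (fun i => f l (G i) < b)).card ≤ t - 1 := by
    intro l
    by_contra hcon
    have hcon' : t ≤ (univ.filter (fun i => f l (G i) < b)).card := by omega
    obtain ⟨A, hA, hAc⟩ := Finset.exists_subset_card_eq hcon'
    have h1 := h A hAc (f l) (hf l)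
    have hpos : ∀ i ∈ A, 0 < f l (G i) := by
      intro i hi
      refine lt_of_le_of_ne (bound_nonneg (hf l) _) (Ne.symm ?_)
      exact (Finset.prod_ne_zero_iff.1 (ne_of_gt (hN'.trans_le h1))) i hi
    have hne : A.Nonempty := by
      rw [← Finset.card_pos]
      omega
    have h2 : ∏ i ∈ A, f l (G i) < ∏ _i ∈ A, b :=
      Finset.prod_lt_prod_of_nonempty hpos (fun i hi => (Finset.mem_filter.1 (hA hi)).2) hne
    rw [Finset.prod_const, hAc] at h2
    linarith
  have h1 : (univ.filter (fun i => ¬ ∀ l, b ≤ f l (G i))).card ≤ (t - 1) * k := by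
    have hsub : univ.filter (fun i => ¬ ∀ l, b ≤ f l (G i)) ⊆
        univ.biUnion (fun l => univ.filter (fun i => f l (G i) < b)) := by
      intro i hi
      rw [Finset.mem_filter] at hi
      obtain ⟨l, hl⟩ := not_forall.1 hi.2
      rw [Finset.mem_biUnion]
      exact ⟨l, Finset.mem_univ _, Finset.mem_filter.2 ⟨Finset.mem_univ _, not_le.1 hl⟩⟩
    calc _ ≤ _ := Finset.card_le_card hsub
      _ ≤ ∑ l : Fin k, (univ.filter (fun i => f l (G i) < b)).card := Finset.card_biUnion_le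
      _ ≤ ∑ _l : Fin k, (t - 1) := Finset.sum_le_sum (fun l _ => hbad l)
      _ = (t - 1) * k := by
          rw [Finset.sum_const, Finset.card_univ, Fintype.card_fin, smul_eq_mul, mul_comm]
  have h2 : Nat.card {i : Fin M // ∀ l, b ≤ f l (G i)} +
      (univ.filter (fun i => ¬ ∀ l, b ≤ f l (G i))).card = M := by
    rw [Nat.card_eq_fintype_card, Fintype.card_subtype]
    have := Finset.card_filter_add_card_filter_not (s := (Finset.univ : Finset (Fin M)))
      (fun i => ∀ l, b ≤ f l (G i))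
    rw [Finset.card_univ, Fintype.card_fin] at this
    exact this
  omega

theorem hd_pos {r : ℕ} {x y : Fin r → ZMod 2} (h : x ≠ y) : 0 < hd x y := by
  unfold hd
  rw [Finset.card_pos]
  obtain ⟨i, hi⟩ := Function.ne_iff.1 h
  exact ⟨i, Finset.mem_filter.2 ⟨Finset.mem_univ _, hi⟩⟩

theorem hd_le {r : ℕ} (x y : Fin r → ZMod 2) : hd x y ≤ r := by
  unfold hd
  refine (Finset.card_le_univ _).trans ?_
  rw [Fintype.card_fin]

instance finCube (r : ℕ) : Finite (Multiplicative (Fin r → ZMod 2)) :=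
  inferInstanceAs (Finite (Fin r → ZMod 2))

theorem card_cube (r : ℕ) : Nat.card (Multiplicative (Fin r → ZMod 2)) = 2 ^ r := by
  have h : Nat.card (Multiplicative (Fin r → ZMod 2)) = Nat.card (Fin r → ZMod 2) :=
    Nat.card_congr Multiplicative.toAdd
  rw [h, Nat.card_eq_fintype_card, Fintype.card_fun, Fintype.card_fin, ZMod.card]

/-- Products of the graphs for the primes in A. -/
theorem exists_prod {r : ℕ} (c : ℕ → Code)
    (u : ∀ p, Multiplicative (Fin r → ZMod 2) → Fin (c p).1)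
    (hu : ∀ p, ∀ x y, (cayley (conn r p))ᶜ.Adj x y → (gr (c p))ᶜ.Adj (u p x) (u p y))
    {A : Finset ℕ} (hA : A.Nonempty) :
    ∃ (e : Code) (w : Multiplicative (Fin r → ZMod 2) → Fin e.1),
      (∀ x y, (∃ p ∈ A, (cayley (conn r p))ᶜ.Adj x y) → (gr e)ᶜ.Adj (w x) (w y)) ∧
      ∀ f : Code → ℝ, IsBound f → f e ≤ ∏ p ∈ A, f (c p) := by
  classical
  induction hA using Finset.Nonempty.cons_induction with
  | singleton p =>
    refine ⟨c p, u p, ?_, ?_⟩
    · rintro x y ⟨q, hq, h⟩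
      rw [Finset.mem_singleton] at hq
      subst hq
      exact hu _ x y h
    · intro f _
      rw [Finset.prod_singleton]
  | cons p s hps hs ih =>
    obtain ⟨e, w, hw, hf⟩ := ih
    obtain ⟨g⟩ := gr_mulc (c p) e
    refine ⟨mulc (c p) e, fun x => g.symm (u p x, w x), ?_, ?_⟩
    · rintro x y ⟨q, hq, h⟩
      rw [Finset.mem_cons] at hq
      have h2 : (sprod (gr (c p)) (gr e))ᶜ.Adj (u p x, w x) (u p y, w y) := by
        apply sep_sprod
        rcases hq with rfl | hq
        · exact Or.inl (hu _ x y h)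
        · exact Or.inr (hw x y ⟨q, hq, h⟩)
      rw [compl_adj] at h2 ⊢
      exact ⟨fun he => h2.1 (g.symm.injective he), fun ha => h2.2 (g.symm.map_adj_iff.1 ha)⟩
    · intro f hfb
      rw [Finset.prod_cons]
      exact (hfb.submul _ _ _ ⟨g⟩).trans
        (mul_le_mul_of_nonneg_left (hf f hfb) (bound_nonneg hfb _))

theorem big_prod {r : ℕ} (c : ℕ → Code)
    (u : ∀ p, Multiplicative (Fin r → ZMod 2) → Fin (c p).1)
    (hu : ∀ p, ∀ x y, (cayley (conn r p))ᶜ.Adj x y → (gr (c p))ᶜ.Adj (u p x) (u p y))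
    {A : Finset ℕ} (hA : A.Nonempty) (hP : ∀ p ∈ A, p.Prime) (hr : r < ∏ p ∈ A, p)
    {f : Code → ℝ} (hf : IsBound f) : ((2 ^ r : ℕ) : ℝ) ≤ ∏ p ∈ A, f (c p) := by
  classical
  obtain ⟨e, w, hw, hfe⟩ := exists_prod c u hu hA
  refine le_trans ?_ ((hf.indep e).trans (hfe f hf))
  have := Fintype.ofFinite (Multiplicative (Fin r → ZMod 2))
  have h1 : (univ : Finset (Multiplicative (Fin r → ZMod 2))).card = 2 ^ r := by
    rw [Finset.card_univ, ← Nat.card_eq_fintype_card, card_cube]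
  have h2 : 2 ^ r ≤ (gr e).indepNum := by
    rw [← h1]
    refine card_le _ w (fun x _ y _ hxy => hw x y ?_)
    have hne : Multiplicative.toAdd x ≠ Multiplicative.toAdd y :=
      fun e => hxy (Multiplicative.toAdd.injective e)
    by_contra hcon
    have h3 : ∀ p ∈ A, p ∣ hd (Multiplicative.toAdd x) (Multiplicative.toAdd y) := by
      intro p hp
      by_contra h4
      apply hcon
      refine ⟨p, hp, ?_⟩
      rw [compl_adj, conn_adj]
      exact ⟨hxy, fun h => h4 h.2⟩
    have h5 : (∏ p ∈ A, p) ∣ hd (Multiplicative.toAdd x) (Multiplicative.toAdd y) :=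
      Finset.prod_primes_dvd _ (fun p hp => (hP p hp).prime) h3
    have h6 := Nat.le_of_dvd (hd_pos hne) h5
    have h7 := hd_le (Multiplicative.toAdd x) (Multiplicative.toAdd y)
    omega
  exact_mod_cast h2

theorem core {r m v t : ℕ} (ht : 1 ≤ t) {P : Finset ℕ} (hP : ∀ p ∈ P, p.Prime)
    (hPQ : ∀ A ⊆ P, A.card = t → r < ∏ p ∈ A, p) {a b : ℝ}
    (hb : ∀ p ∈ P, theta (cayley (conn r p)) ≤ m) (hma : (m : ℝ) ≤ a) (hv : 2 ^ r + m ≤ v)
    (hbs : b ^ t ≤ ((2 ^ r : ℕ) : ℝ)) :
    HardList (fun c => IsCubelike (gr c)) v P.card t a b ∧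
    HardList (fun c => IsCubelikeJoin (gr c) ∧ theta (gr c) = (gr c).indepNum)
      v P.card t a b := by
  classical
  choose c hc1 hc2 using fun p => exists_code_iso (cayley (conn r p))
  have hcs : ∀ p, (c p).1 = 2 ^ r := fun p => (hc1 p).trans (card_cube r)
  have hcay : ∀ p, IsCubelike (gr (c p)) := fun p => ⟨r, conn r p, hc2 p⟩
  have hmap : ∀ p, ∃ u : Multiplicative (Fin r → ZMod 2) → Fin (c p).1,
      ∀ x y, (cayley (conn r p))ᶜ.Adj x y → (gr (c p))ᶜ.Adj (u x) (u y) := by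
    intro p
    obtain ⟨e⟩ := hc2 p
    refine ⟨fun x => e.symm x, fun x y h => ?_⟩
    rw [compl_adj] at h ⊢
    exact ⟨fun he => h.1 (e.symm.injective he), fun ha => h.2 (e.symm.map_adj_iff.1 ha)⟩
  choose u hu using hmap
  have hth : ∀ p, theta (gr (c p)) = theta (cayley (conn r p)) := by
    intro p
    obtain ⟨e⟩ := hc2 p
    exact theta_congr e
  -- products over the list
  have hlist : ∀ (d : ℕ → Code) (w : ∀ p, Multiplicative (Fin r → ZMod 2) → Fin (d p).1),
      (∀ p, ∀ x y, (cayley (conn r p))ᶜ.Adj x y → (gr (d p))ᶜ.Adj (w p x) (w p y)) →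
      ∀ A : Finset (Fin P.card), A.card = t → ∀ f, IsBound f →
        ((2 ^ r : ℕ) : ℝ) ≤ ∏ i ∈ A, f (d (P.equivFin.symm i).1) := by
    intro d w hw A hA f hf
    have hinj : Function.Injective (fun i : Fin P.card => (P.equivFin.symm i).1) :=
      fun i j h => P.equivFin.symm.injective (Subtype.ext h)
    have h1 : ∏ p ∈ A.map ⟨_, hinj⟩, f (d p) = ∏ i ∈ A, f (d (P.equivFin.symm i).1) := by
      rw [Finset.prod_map]
      rfl
    rw [← h1]
    have hsub : A.map ⟨_, hinj⟩ ⊆ P := by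
      intro p hp
      rw [Finset.mem_map] at hp
      obtain ⟨i, -, rfl⟩ := hp
      exact (P.equivFin.symm i).2
    have hcard : (A.map ⟨_, hinj⟩).card = t := by rw [Finset.card_map, hA]
    refine big_prod d w hw ?_ (fun p hp => hP p (hsub hp)) (hPQ _ hsub hcard) hf
    rw [← Finset.card_pos, hcard]
    omega
  constructor
  · refine ⟨fun i => c (P.equivFin.symm i).1, fun i => ⟨?_, hcay _, ?_⟩, ?_⟩
    · rw [hcs]
      omega
    · rw [hth]
      exact (hb _ (P.equivFin.symm i).2).trans hma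
    · exact count (by positivity) ht _ (hlist c u hu) hbs
  · choose d hd1 hd2 using fun p => exists_code_iso (joinE (gr (c p)) m)
    have hmap2 : ∀ p, ∃ w : Multiplicative (Fin r → ZMod 2) → Fin (d p).1,
        ∀ x y, (cayley (conn r p))ᶜ.Adj x y → (gr (d p))ᶜ.Adj (w x) (w y) := by
      intro p
      obtain ⟨e⟩ := hd2 p
      refine ⟨fun x => e.symm (Sum.inl (u p x)), fun x y h => ?_⟩
      have h2 : (joinE (gr (c p)) m)ᶜ.Adj (Sum.inl (u p x)) (Sum.inl (u p y)) :=
        sep_joinE.2 (Or.inl ⟨_, _, rfl, rfl, hu p x y h⟩)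
      rw [compl_adj] at h2 ⊢
      exact ⟨fun he => h2.1 (e.symm.injective he), fun ha => h2.2 (e.symm.map_adj_iff.1 ha)⟩
    choose w hw using hmap2
    have hbm : ∀ p ∈ P, theta (gr (c p)) ≤ m := by
      intro p hp
      rw [hth]
      exact hb p hp
    have hT : ∀ p ∈ P, theta (gr (d p)) = m := by
      intro p hp
      have hne : Nonempty (Fin (c p).1) := by
        rw [hcs]
        exact ⟨⟨0, by positivity⟩⟩
      obtain ⟨e⟩ := hd2 p
      rw [theta_congr e, theta_joinE]
      exact max_eq_right (hbm p hp)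
    have hI : ∀ p ∈ P, (gr (d p)).indepNum = m := by
      intro p hp
      obtain ⟨e⟩ := hd2 p
      rw [indepNum_congr e, indepNum_joinE]
      apply max_eq_right
      have := (indepNum_le_theta (gr (c p))).trans (hbm p hp)
      exact_mod_cast this
    refine ⟨fun i => d (P.equivFin.symm i).1, fun i => ⟨?_, ⟨?_, ?_⟩, ?_⟩, ?_⟩
    · rw [hd1, Nat.card_sum, Nat.card_eq_fintype_card, Nat.card_eq_fintype_card,
        Fintype.card_fin, Fintype.card_fin, hcs]
      exact hv
    · exact ⟨_, m, gr (c _), hcay _, hd2 _⟩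
    · rw [hT _ (P.equivFin.symm i).2, hI _ (P.equivFin.symm i).2]
    · rw [hT _ (P.equivFin.symm i).2]
      exact hma
    · exact count (by positivity) ht _ (hlist d w hw) hbs

end Pool.Agent.MC
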